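import Pool.Agent.Lib_helper71.HypAsdim.Main

set_option autoImplicit false

/-!
# MP_28f3fb_gt, Q1 : the answer is no, in every dimension `d ≥ 3`

For every `d ≥ 3` and every net `Z` of hyperbolic space `ℍ^d` we have
`asdim_{o(poly(d))}(Z) ≤ asdim_{Lin}(Z) ≤ d - 1`, where `Lin` is the family of the functions
`t ↦ C * (t + 1)`.  Hence it is not true that `asdim_{o(poly(d))}(ℍ^d) = d` for every `d ≥ 1`.
-/

namespace Pool.Agent.Results.MP_28f3fb_gt.Disproof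

open Pool.Agent.HypAsdim

theorem result :
    (∀ d : ℕ, 3 ≤ d → ∀ Z : Set (Hyp d), IsNet Z →
      asdim (littleOPoly d) Z ≤ asdim linearFns Z ∧ asdim linearFns Z ≤ ((d - 1 : ℕ) : ℕ∞)) ∧
    ¬ (∀ d : ℕ, 1 ≤ d → ∀ Z : Set (Hyp d), IsNet Z → asdim (littleOPoly d) Z = (d : ℕ∞)) := by
  have main : ∀ d : ℕ, 3 ≤ d → ∀ Z : Set (Hyp d), IsNet Z →
      asdim (littleOPoly d) Z ≤ asdim linearFns Z ∧
        asdim linearFns Z ≤ ((d - 1 : ℕ) : ℕ∞) := by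
    intro d hd Z hZ
    exact ⟨asdim_anti (linearFns_subset (by omega)) Z, asdim_le (asdimLE_linear hd Z hZ.1)⟩
  refine ⟨main, fun h => ?_⟩
  obtain ⟨Z, hZ⟩ := exists_net (Hyp 3)
  have h1 := h 3 (by norm_num) Z hZ
  obtain ⟨h2, h3⟩ := main 3 le_rfl Z hZ
  rw [h1] at h2
  have h4 : ((3 : ℕ) : ℕ∞) ≤ ((3 - 1 : ℕ) : ℕ∞) := h2.trans h3
  have h5 : (3 : ℕ) ≤ 3 - 1 := by exact_mod_cast h4
  omega

end Pool.Agent.Results.MP_28f3fb_gt.Disproof
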